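import Pool.Agent.R134.RJ4

/-!
# MP_d77547_co: set-partition quasisymmetric expansion of one-row Jack polynomials

We prove, for every `n`, the identity of the problem, as an identity of power series in
`x_0, x_1, …` with coefficients in `ℚ[α]`.  Evaluated at a natural number `N` and at the monomial
`x^e`, the right-hand side counts triples (permutation `π`, word `φ : [n] → [N]`, word `u` of
content `e` whose standardisation is the refilled permutation), and these triples are in bijection
with pairs (permutation, `N × ∞` matrix of natural numbers with column sums `e`).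
-/

namespace Pool.Agent.Results.MP_d77547_co.SetPartitionExpansion

open R134.RJ Finset

theorem coeff_lhs (n : ℕ) (e : ℕ →₀ ℕ) :
    MvPowerSeries.coeff e (jackRow n) =
      ∑ lam : n.Partition, (Polynomial.C ((n.factorial : ℚ) /
          ((lam.parts.map Nat.factorial).prod : ℕ)) *
        (lam.parts.map (fun k => ∏ j ∈ Finset.range k,
          (Polynomial.X + Polynomial.C ((k - 1 - j : ℕ) : ℚ)))).prod) *
        (if e.support.val.map e = lam.parts then 1 else 0) := by
  unfold jackRow
  rw [map_sum]
  refine Finset.sum_congr rfl (fun lam _ => ?_)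
  rw [MvPowerSeries.coeff_C_mul]
  rfl

theorem lhs_eval (n N : ℕ) (e : ℕ →₀ ℕ) (he : Multiset.card (Finsupp.toMultiset e) = n) :
    Polynomial.eval (N : ℚ) (MvPowerSeries.coeff e (jackRow n)) =
      (n.factorial : ℚ) * ∏ l ∈ e.support, (Nat.multichoose N (e l) : ℚ) := by
  rw [coeff_lhs]
  have hsum : (e.support.val.map e).sum = n := by
    rw [← he, Finsupp.card_toMultiset]
    rfl
  let lam0 : n.Partition := ⟨e.support.val.map e, by
    intro i hi
    rw [Multiset.mem_map] at hi
    obtain ⟨a, ha, rfl⟩ := hi
    exact Nat.pos_of_ne_zero (Finsupp.mem_support_iff.1 ha), hsum⟩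
  rw [Finset.sum_eq_single lam0]
  · simp only [lam0, if_true, mul_one]
    rw [Polynomial.eval_mul, Polynomial.eval_C, Multiset.map_map, Multiset.map_map]
    have h1 : (Multiset.map (Nat.factorial ∘ ⇑e) e.support.val).prod =
        ∏ l ∈ e.support, (e l).factorial := rfl
    have h2 : (Multiset.map ((fun k => ∏ j ∈ Finset.range k,
          ((Polynomial.X : Polynomial ℚ) + Polynomial.C ((k - 1 - j : ℕ) : ℚ))) ∘ ⇑e)
            e.support.val).prod =
        ∏ l ∈ e.support, ∏ j ∈ Finset.range (e l),
          ((Polynomial.X : Polynomial ℚ) + Polynomial.C ((e l - 1 - j : ℕ) : ℚ)) := rfl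
    rw [h1, h2, Polynomial.eval_prod]
    have h3 : ∀ l ∈ e.support, Polynomial.eval (N : ℚ) (∏ j ∈ Finset.range (e l),
          ((Polynomial.X : Polynomial ℚ) + Polynomial.C ((e l - 1 - j : ℕ) : ℚ))) =
          ((e l).factorial : ℚ) * (Nat.multichoose N (e l) : ℚ) := by
      intro l _
      rw [Polynomial.eval_prod, ← Nat.cast_mul, factorial_mul_multichoose, Nat.cast_prod]
      rw [← Finset.prod_range_reflect]
      refine Finset.prod_congr rfl (fun j hj => ?_)
      have hj' := Finset.mem_range.1 hj
      rw [Polynomial.eval_add, Polynomial.eval_X, Polynomial.eval_C]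
      push_cast
      congr 2
      omega
    rw [Finset.prod_congr rfl h3, Finset.prod_mul_distrib, Nat.cast_prod]
    have h4 : (∏ l ∈ e.support, ((e l).factorial : ℚ)) ≠ 0 := by
      rw [Finset.prod_ne_zero_iff]
      intro l _
      exact_mod_cast Nat.factorial_ne_zero _
    field_simp
  · intro lam _ hne
    have : ¬ (e.support.val.map e = lam.parts) := by
      intro h
      apply hne
      apply Nat.Partition.ext
      exact h.symm
    rw [if_neg this, mul_zero]
  · intro h
    exact absurd (Finset.mem_univ _) h

theorem lhs_zero (n : ℕ) (e : ℕ →₀ ℕ) (he : Multiset.card (Finsupp.toMultiset e) ≠ n) :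
    MvPowerSeries.coeff e (jackRow n) = 0 := by
  rw [coeff_lhs]
  refine Finset.sum_eq_zero (fun lam _ => ?_)
  have : ¬ (e.support.val.map e = lam.parts) := by
    intro h
    apply he
    have h2 := congrArg Multiset.sum h
    rw [lam.parts_sum] at h2
    rw [Finsupp.card_toMultiset, ← h2]
    rfl
  rw [if_neg this, mul_zero]

/-- **Set-partition expansion of the one-row Jack polynomial.**  For every `n`,
`J̃_{(n)}^{(α)}(X) = ∑_{π ∈ S_n} ∑_{β ∈ B_n} α (α - 1) ⋯ (α - |β| + 1) F_{Des(P(f_β(π)))}(x)`. -/
theorem result (n : ℕ) :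
    jackRow n = ∑ π : Equiv.Perm (Fin n), ∑ β : Finpartition (univ : Finset (Fin n)),
      MvPowerSeries.C (∏ i ∈ Finset.range β.parts.card,
        (Polynomial.X - Polynomial.C (i : ℚ))) *
      fundQSym (Polynomial ℚ) n (desSet n (insTab (word (refill β π)))) := by
  ext1 e
  have hR : MvPowerSeries.coeff e (∑ π : Equiv.Perm (Fin n),
      ∑ β : Finpartition (univ : Finset (Fin n)),
      MvPowerSeries.C (∏ i ∈ Finset.range β.parts.card,
        (Polynomial.X - Polynomial.C (i : ℚ))) *
      fundQSym (Polynomial ℚ) n (desSet n (insTab (word (refill β π))))) =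
      ∑ π : Equiv.Perm (Fin n), ∑ β : Finpartition (univ : Finset (Fin n)),
      (∏ i ∈ Finset.range β.parts.card, (Polynomial.X - Polynomial.C (i : ℚ))) *
      ((Nat.card {i : Fin n → ℕ // Monotone i ∧
        (∀ j k : Fin n, (k : ℕ) = j + 1 →
          (k : ℕ) ∈ desSet n (insTab (word (refill β π))) → i j < i k) ∧
        ∑ j, Finsupp.single (i j) 1 = e} : ℕ) : Polynomial ℚ) := by
    rw [map_sum]
    refine Finset.sum_congr rfl (fun π _ => ?_)
    rw [map_sum]
    refine Finset.sum_congr rfl (fun β _ => ?_)
    rw [MvPowerSeries.coeff_C_mul]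
    rfl
  rw [hR]
  by_cases he : Multiset.card (Finsupp.toMultiset e) = n
  · apply Polynomial.eq_of_infinite_eval_eq
    apply Set.infinite_of_injective_forall_mem (f := fun N : ℕ => (N : ℚ)) Nat.cast_injective
    intro N
    change Polynomial.eval (N : ℚ) _ = Polynomial.eval (N : ℚ) _
    rw [lhs_eval n N e he]
    have := congrArg (fun m : ℕ => (m : ℚ)) (rhs_eval n N e he)
    simp only [Nat.cast_sum, Nat.cast_mul, Nat.cast_prod] at this
    rw [← this, Polynomial.eval_finsetSum]
    refine Finset.sum_congr rfl (fun π _ => ?_)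
    rw [Polynomial.eval_finsetSum]
    refine Finset.sum_congr rfl (fun β _ => ?_)
    rw [Polynomial.eval_mul, Polynomial.eval_prod, Polynomial.eval_natCast]
    congr 1
    rw [← prod_desc]
    refine Finset.prod_congr rfl (fun i _ => ?_)
    rw [Polynomial.eval_sub, Polynomial.eval_X, Polynomial.eval_C]
  · rw [lhs_zero n e he]
    symm
    refine Finset.sum_eq_zero (fun π _ => Finset.sum_eq_zero (fun β _ => ?_))
    rw [rhs_zero n _ e he]
    simp

end Pool.Agent.Results.MP_d77547_co.SetPartitionExpansion
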